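import Mathlib

set_option autoImplicit false

namespace Pool.Agent.Results.MP_e83c66_co.Disproof

/-- A simplicial endomorphism of `G`: adjacent vertices are mapped to equal or adjacent vertices. -/
def IsSimplicialEndo {V : Type*} (G : SimpleGraph V) (f : V → V) : Prop :=
  ∀ x y : V, G.Adj x y → f x = f y ∨ G.Adj (f x) (f y)

/-- The fixed clique property: each simplicial endomorphism `f` maps some nonempty clique `C`
onto itself. -/
def FixedCliqueProperty {V : Type*} (G : SimpleGraph V) : Prop :=
  ∀ f : V → V, IsSimplicialEndo G f →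
    ∃ C : Set V, C.Nonempty ∧ G.IsClique C ∧ f '' C = C

/-! ### A working version on vertex subsets -/

section general

variable {V : Type*} [DecidableEq V]

/-- `f` maps `S` into itself and is simplicial on `S`. -/
def EndoOn (G : SimpleGraph V) (S : Finset V) (f : V → V) : Prop :=
  (∀ x ∈ S, f x ∈ S) ∧ ∀ x ∈ S, ∀ y ∈ S, G.Adj x y → f x = f y ∨ G.Adj (f x) (f y)

/-- The fixed clique property of the subgraph induced on `S`, in terms of invariant cliques. -/
def FCPOn (G : SimpleGraph V) (S : Finset V) : Prop :=
  ∀ f : V → V, EndoOn G S f →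
    ∃ C : Finset V, C ⊆ S ∧ C.Nonempty ∧ G.IsClique (C : Set V) ∧ C.image f = C

/-- An invariant clique contains a fixed one. -/
theorem exists_fixed_of_invariant (G : SimpleGraph V) (f : V → V) (K : Finset V) :
    K.Nonempty → G.IsClique (K : Set V) → (∀ x ∈ K, f x ∈ K) →
    ∃ C : Finset V, C ⊆ K ∧ C.Nonempty ∧ G.IsClique (C : Set V) ∧ C.image f = C := by
  induction K using Finset.strongInduction with
  | _ K ih =>
    intro hne hK hf
    by_cases h : K.image f = K
    · exact ⟨K, subset_rfl, hne, hK, h⟩
    · have hsub : K.image f ⊆ K := by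
        intro y hy
        obtain ⟨x, hx, rfl⟩ := Finset.mem_image.1 hy
        exact hf x hx
      have hss : K.image f ⊂ K := lt_of_le_of_ne hsub h
      obtain ⟨C, hC, h1, h2, h3⟩ := ih (K.image f) hss (hne.image f)
        (hK.subset (by exact_mod_cast hsub))
        (fun x hx => Finset.mem_image_of_mem f (hsub hx))
      exact ⟨C, hC.trans hsub, h1, h2, h3⟩

/-- A one-vertex graph has the fixed clique property. -/
theorem fcpOn_singleton (G : SimpleGraph V) (a : V) : FCPOn G {a} := by
  intro f hf
  refine ⟨{a}, subset_rfl, by simp, by simp, ?_⟩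
  have := hf.1 a (by simp)
  simpa using this

/-- Adding a dominated vertex keeps the fixed clique property. -/
theorem fcpOn_of_dominated (G : SimpleGraph V) (S : Finset V) (x y : V)
    (hy : y ∈ S) (hxy : G.Adj x y)
    (hdom : ∀ z ∈ S, G.Adj x z → z = y ∨ G.Adj y z)
    (h : FCPOn G (S.erase x)) : FCPOn G S := by
  intro f hf
  by_cases hxS : x ∉ S
  · rw [Finset.erase_eq_of_notMem hxS] at h
    exact h f hf
  have hxS : x ∈ S := not_not.1 hxS
  have hne : x ≠ y := hxy.ne
  have hyE : y ∈ S.erase x := Finset.mem_erase.2 ⟨hne.symm, hy⟩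
  -- the retraction
  set ρ : V → V := fun z => if z = x then y else z with hρ
  have hρE : ∀ z ∈ S, ρ z ∈ S.erase x := by
    intro z hz
    by_cases hzx : z = x
    · simp [hρ, hzx, hyE]
    · simp [hρ, hzx, hz]
  have hρs : ∀ z ∈ S, ∀ w ∈ S, (z = w ∨ G.Adj z w) → (ρ z = ρ w ∨ G.Adj (ρ z) (ρ w)) := by
    intro z hz w hw hzw
    rcases hzw with rfl | hzw
    · exact Or.inl rfl
    by_cases hzx : z = x
    · by_cases hwx : w = x
      · left; simp [hρ, hzx, hwx]
      · subst hzx
        have := hdom w hw hzw
        simp only [hρ, if_true, if_neg hwx]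
        rcases this with h1 | h1
        · left; exact h1.symm
        · right; exact h1
    · by_cases hwx : w = x
      · subst hwx
        have := hdom z hz hzw.symm
        simp only [hρ, if_true, if_neg hzx]
        rcases this with h1 | h1
        · left; exact h1
        · right; exact h1.symm
      · right; simpa [hρ, hzx, hwx] using hzw
  -- the composite has a fixed clique
  obtain ⟨C, hCS, hCne, hCc, hCf⟩ := h (fun z => ρ (f z)) (by
    constructor
    · intro z hz
      exact hρE _ (hf.1 z (Finset.mem_of_mem_erase hz))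
    · intro z hz w hw hzw
      exact hρs _ (hf.1 z (Finset.mem_of_mem_erase hz)) _ (hf.1 w (Finset.mem_of_mem_erase hw))
        (hf.2 z (Finset.mem_of_mem_erase hz) w (Finset.mem_of_mem_erase hw) hzw))
  have hCS' : C ⊆ S := hCS.trans (Finset.erase_subset _ _)
  have hxC : x ∉ C := fun hx => (Finset.mem_erase.1 (hCS hx)).1 rfl
  by_cases hxf : ∃ c ∈ C, f c = x
  · -- then `y ∈ C`
    obtain ⟨c0, hc0, hfc0⟩ := hxf
    have hyC : y ∈ C := by
      rw [← hCf]
      exact Finset.mem_image.2 ⟨c0, hc0, by simp [hρ, hfc0]⟩
    -- adjacency-or-equality relation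
    have hfr : ∀ z ∈ S, ∀ w ∈ S, (z = w ∨ G.Adj z w) → (f z = f w ∨ G.Adj (f z) (f w)) := by
      intro z hz w hw hzw
      rcases hzw with rfl | hzw
      · exact Or.inl rfl
      · exact hf.2 z hz w hw hzw
    have hCr : ∀ z ∈ C, ∀ w ∈ C, z = w ∨ G.Adj z w := by
      intro z hz w hw
      by_cases hzw : z = w
      · exact Or.inl hzw
      · exact Or.inr (hCc hz hw hzw)
    -- each element of `C` other than `y` is a value of `f` on `C`
    have hCim : ∀ z ∈ C, z ≠ y → ∃ c ∈ C, f c = z := by
      intro z hz hzy
      rw [← hCf] at hz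
      obtain ⟨c, hc, hcz⟩ := Finset.mem_image.1 hz
      refine ⟨c, hc, ?_⟩
      by_cases hcx : f c = x
      · simp [hρ, hcx] at hcz
        exact absurd hcz.symm hzy
      · simpa [hρ, hcx] using hcz
    -- the orbit of `x`
    set w : ℕ → V := fun i => f^[i] x with hw
    have hwS : ∀ i, w i ∈ S := by
      intro i
      induction i with
      | zero => simpa [hw] using hxS
      | succ i ihi =>
        have : w (i+1) = f (w i) := by simp [hw, Function.iterate_succ_apply']
        rw [this]; exact hf.1 _ ihi
    have hwsucc : ∀ i, w (i+1) = f (w i) := by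
      intro i; simp [hw, Function.iterate_succ_apply']
    have hw0 : w 0 = x := by simp [hw]
    -- every orbit element is close to every element of `C`, and orbit elements are close
    have key : ∀ i, (∀ c ∈ C, w i = c ∨ G.Adj (w i) c) ∧ ∀ j, j ≤ i → (w i = w j ∨ G.Adj (w i) (w j)) := by
      intro i
      induction i with
      | zero =>
        refine ⟨?_, ?_⟩
        · intro c hc
          right
          rw [hw0]
          by_cases hcy : c = y
          · rw [hcy]; exact hxy
          · obtain ⟨c', hc', hfc'⟩ := hCim c hc hcy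
            have hcx : c ≠ x := fun h => hxC (h ▸ hc)
            have := hfr c0 (hCS' hc0) c' (hCS' hc') (hCr _ hc0 _ hc')
            rw [hfc0, hfc'] at this
            rcases this with h1 | h1
            · exact absurd h1.symm hcx
            · exact h1
        · intro j hj
          left
          rw [Nat.le_zero.1 hj]
      | succ i ihi =>
        obtain ⟨ih1, ih2⟩ := ihi
        -- relation with the images of elements of `C`
        have hA : ∀ c ∈ C, (w (i+1) = f c ∨ G.Adj (w (i+1)) (f c)) := by
          intro c hc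
          rw [hwsucc]
          exact hfr _ (hwS i) _ (hCS' hc) (ih1 c hc)
        have hx' : w (i+1) = x ∨ G.Adj (w (i+1)) x := by
          have := hA c0 hc0
          rwa [hfc0] at this
        refine ⟨?_, ?_⟩
        · intro c hc
          by_cases hcy : c = y
          · subst hcy
            rcases hx' with h1 | h1
            · right; rw [h1]; exact hxy
            · rcases hdom (w (i+1)) (hwS _) h1.symm with h2 | h2
              · left; exact h2
              · right; exact h2.symm
          · obtain ⟨c', hc', hfc'⟩ := hCim c hc hcy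
            have := hA c' hc'
            rwa [hfc'] at this
        · intro j hj
          rcases Nat.eq_or_lt_of_le hj with h1 | h1
          · left; rw [h1]
          · cases j with
            | zero => rw [hw0]; exact hx'
            | succ j =>
              rw [hwsucc, hwsucc]
              exact hfr _ (hwS i) _ (hwS j) (ih2 j (by omega))
    -- the orbit is an invariant clique
    have horb : ∃ K : Finset V, (∀ z, z ∈ K ↔ ∃ i, w i = z) := by
      have hfin : (Set.range w).Finite := by
        apply Set.Finite.subset S.finite_toSet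
        rintro _ ⟨i, rfl⟩
        exact hwS i
      refine ⟨hfin.toFinset, ?_⟩
      intro z
      simp
    obtain ⟨K, hK⟩ := horb
    have hKS : K ⊆ S := by
      intro z hz
      obtain ⟨i, rfl⟩ := (hK z).1 hz
      exact hwS i
    obtain ⟨C', hC'K, h1, h2, h3⟩ := exists_fixed_of_invariant G f K
      ⟨x, (hK x).2 ⟨0, hw0⟩⟩
      (by
        intro a ha b hb hab
        obtain ⟨i, rfl⟩ := (hK a).1 ha
        obtain ⟨j, rfl⟩ := (hK b).1 hb
        rcases le_total j i with hij | hij
        · rcases (key i).2 j hij with h | h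
          · exact absurd h hab
          · exact h
        · rcases (key j).2 i hij with h | h
          · exact absurd h.symm hab
          · exact h.symm)
      (by
        intro z hz
        obtain ⟨i, rfl⟩ := (hK z).1 hz
        exact (hK _).2 ⟨i+1, hwsucc i⟩)
    exact ⟨C', hC'K.trans hKS, h1, h2, h3⟩
  · refine ⟨C, hCS', hCne, hCc, ?_⟩
    have hcongr : C.image f = C.image (fun z => ρ (f z)) := by
      apply Finset.image_congr
      intro z hz
      have hzx : f z ≠ x := fun h' => hxf ⟨z, hz, h'⟩
      simp [hρ, hzx]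
    rw [hcongr]
    exact hCf

/-- If all the one-vertex-deleted subgraphs of `S` have the fixed clique property and `S` has a
vertex `u` whose degree in `S` is larger than all others, then `S` has the fixed clique
property. -/
theorem fcpOn_of_erase (G : SimpleGraph V) [DecidableRel G.Adj] (S : Finset V) (u : V)
    (hu : u ∈ S)
    (hdeg : ∀ z ∈ S, z ≠ u → (S.filter (G.Adj z)).card < (S.filter (G.Adj u)).card)
    (h : ∀ z ∈ S, FCPOn G (S.erase z)) : FCPOn G S := by
  intro f hf
  by_cases hsurj : ∀ z ∈ S, ∃ c ∈ S, f c = z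
  · have hinj : Set.InjOn f S := by
      have himg : S.image f = S := by
        apply Finset.Subset.antisymm
        · intro z hz
          obtain ⟨c, hc, rfl⟩ := Finset.mem_image.1 hz
          exact hf.1 c hc
        · intro z hz
          obtain ⟨c, hc, hcz⟩ := hsurj z hz
          exact Finset.mem_image.2 ⟨c, hc, hcz⟩
      exact Finset.card_image_iff.1 (by rw [himg])
    have hfu : f u = u := by
      by_contra hne
      have h1 := hdeg (f u) (hf.1 u hu) hne
      have h2 : ((S.filter (G.Adj u)).image f) ⊆ S.filter (G.Adj (f u)) := by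
        intro z hz
        obtain ⟨c, hc, rfl⟩ := Finset.mem_image.1 hz
        obtain ⟨hcS, hcu⟩ := Finset.mem_filter.1 hc
        refine Finset.mem_filter.2 ⟨hf.1 c hcS, ?_⟩
        rcases hf.2 u hu c hcS hcu with h3 | h3
        · exact absurd (hinj hu hcS h3) hcu.ne
        · exact h3
      have h3 := Finset.card_le_card h2
      rw [Finset.card_image_of_injOn (hinj.mono (by
        intro z hz
        exact (Finset.mem_filter.1 (by exact_mod_cast hz)).1))] at h3
      omega
    exact ⟨{u}, by simpa using hu, by simp, by simp, by simp [hfu]⟩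
  · push Not at hsurj
    obtain ⟨z, hz, hzf⟩ := hsurj
    obtain ⟨C, hC, h1, h2, h3⟩ := h z hz f ⟨by
      intro x hx
      have hxS := Finset.mem_of_mem_erase hx
      exact Finset.mem_erase.2 ⟨hzf x hxS, hf.1 x hxS⟩, by
      intro x hx y hy hxy
      exact hf.2 x (Finset.mem_of_mem_erase hx) y (Finset.mem_of_mem_erase hy) hxy⟩
    exact ⟨C, hC.trans (Finset.erase_subset _ _), h1, h2, h3⟩

/-- Check a dismantling sequence. -/
def dismantles (G : SimpleGraph V) [DecidableRel G.Adj] : List (V × V) → Finset V → Bool
  | [], S => decide (S.card = 1)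
  | (x, y) :: l, S =>
      decide (y ∈ S ∧ G.Adj x y ∧ ∀ z ∈ S, G.Adj x z → z = y ∨ G.Adj y z) &&
        dismantles G l (S.erase x)

theorem fcpOn_of_dismantles (G : SimpleGraph V) [DecidableRel G.Adj] (l : List (V × V)) :
    ∀ S : Finset V, dismantles G l S = true → FCPOn G S := by
  induction l with
  | nil =>
    intro S hS
    have : S.card = 1 := by simpa [dismantles] using hS
    obtain ⟨a, rfl⟩ := Finset.card_eq_one.1 this
    exact fcpOn_singleton G a
  | cons p l ih =>
    intro S hS
    obtain ⟨x, y⟩ := p
    simp only [dismantles, Bool.and_eq_true, decide_eq_true_eq] at hS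
    exact fcpOn_of_dominated G S x y hS.1.1 hS.1.2.1 hS.1.2.2 (ih _ hS.2)

/-- Passing to the induced subgraph. -/
theorem fcp_induce (G : SimpleGraph V) (S : Finset V) (s : Set V) (hs : ∀ x, x ∈ s ↔ x ∈ S)
    (h : FCPOn G S) : FixedCliqueProperty (G.induce s) := by
  classical
  intro f hf
  set F : V → V := fun x => if hx : x ∈ s then (f ⟨x, hx⟩ : V) else x with hF
  have hFs : ∀ x (hx : x ∈ s), F x = (f ⟨x, hx⟩ : V) := by
    intro x hx
    simp [hF, hx]
  obtain ⟨C, hC, h1, h2, h3⟩ := h F ⟨by
    intro x hx
    have hx' : x ∈ s := (hs x).2 hx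
    rw [hFs x hx', ← hs]
    exact (f ⟨x, hx'⟩).2, by
    intro x hx y hy hxy
    have hx' : x ∈ s := (hs x).2 hx
    have hy' : y ∈ s := (hs y).2 hy
    rw [hFs x hx', hFs y hy']
    rcases hf ⟨x, hx'⟩ ⟨y, hy'⟩ (by simpa using hxy) with h4 | h4
    · left; exact congrArg Subtype.val h4
    · right; simpa using h4⟩
  have hCs : ∀ x ∈ C, x ∈ s := fun x hx => (hs x).2 (hC hx)
  refine ⟨{z | (z : V) ∈ C}, ?_, ?_, ?_⟩
  · obtain ⟨c, hc⟩ := h1
    exact ⟨⟨c, hCs c hc⟩, hc⟩
  · intro a ha b hb hab
    have := h2 (show (a : V) ∈ (C : Set V) from ha) (show (b : V) ∈ (C : Set V) from hb)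
      (fun h' => hab (Subtype.ext h'))
    simpa using this
  · ext z
    constructor
    · rintro ⟨a, ha, rfl⟩
      have ha' : (a : V) ∈ C := ha
      have : F a ∈ C.image F := Finset.mem_image_of_mem F ha'
      rw [h3, hFs a a.2] at this
      exact this
    · intro hz
      have hz' : (z : V) ∈ C := hz
      rw [← h3] at hz'
      obtain ⟨a, ha, haz⟩ := Finset.mem_image.1 hz'
      refine ⟨⟨a, hCs a ha⟩, ha, ?_⟩
      apply Subtype.ext
      rw [← haz, hFs a (hCs a ha)]

end general

/-! ### The example -/

/-- Rows of the adjacency matrix of the example, written in binary. -/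
def rows : List ℕ :=
  [9704, 6868, 14834, 14065, 6030, 11085, 7983, 12063, 13557, 14586, 4569, 8934, 1886, 2989]

/-- The example, a graph with 14 vertices (it was found as the 1-skeleton of a flag 3-sphere with a
free involution; this is not used below). -/
def Gr : SimpleGraph (Fin 14) where
  Adj i j := (rows.getD i.val 0).testBit j.val = true
  symm := ⟨by decide⟩
  loopless := ⟨by decide⟩

instance : DecidableRel Gr.Adj := fun i j =>
  inferInstanceAs (Decidable ((rows.getD i.val 0).testBit j.val = true))

/-- The free involution. -/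
def inv : Fin 14 → Fin 14 := ![1, 0, 3, 2, 5, 4, 7, 6, 9, 8, 11, 10, 13, 12]

theorem not_fcp : ¬ FixedCliqueProperty Gr := by
  intro h
  have hs : IsSimplicialEndo Gr inv := by
    unfold IsSimplicialEndo
    decide
  obtain ⟨C, ⟨x, hx⟩, hC, hfC⟩ := h inv hs
  have hx' : inv x ∈ C := by
    rw [← hfC]
    exact ⟨x, hx, rfl⟩
  have hno : ∀ x : Fin 14, x ≠ inv x ∧ ¬ Gr.Adj x (inv x) := by decide
  exact (hno x).2 (hC hx hx' (hno x).1)

theorem del_fcp : FCPOn Gr (Finset.univ.erase 2) :=
  fcpOn_of_dismantles Gr
    [(1, 9), (11, 9), (9, 3), (4, 10), (5, 0), (6, 10), (0, 7), (12, 10), (3, 7), (7, 8),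
      (10, 8), (8, 13)] _ (by decide)

theorem link_fcp : FCPOn Gr ({1, 4, 5, 6, 7, 8, 11, 12, 13} : Finset (Fin 14)) := by
  apply fcpOn_of_erase Gr _ 8 (by decide) (by decide)
  intro z hz
  fin_cases hz
  · exact fcpOn_of_dismantles Gr
      [(4, 8), (7, 13), (11, 5), (5, 8), (6, 8), (12, 8), (8, 13)] _ (by decide)
  · exact fcpOn_of_dismantles Gr
      [(12, 6), (1, 11), (6, 5), (5, 13), (7, 13), (8, 13), (11, 13)] _ (by decide)
  · exact fcpOn_of_dismantles Gr
      [(13, 7), (11, 1), (6, 12), (1, 4), (4, 8), (7, 8), (8, 12)] _ (by decide)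
  · exact fcpOn_of_dismantles Gr
      [(5, 13), (11, 7), (1, 4), (4, 8), (7, 8), (12, 8), (8, 13)] _ (by decide)
  · exact fcpOn_of_dismantles Gr
      [(4, 12), (1, 6), (11, 5), (5, 8), (6, 8), (12, 8), (8, 13)] _ (by decide)
  · exact fcpOn_of_dismantles Gr
      [(4, 1), (5, 11), (6, 1), (7, 11), (12, 1), (1, 11), (11, 13)] _ (by decide)
  · exact fcpOn_of_dismantles Gr
      [(5, 8), (6, 12), (1, 4), (4, 8), (7, 8), (12, 8), (8, 13)] _ (by decide)
  · exact fcpOn_of_dismantles Gr
      [(4, 7), (1, 11), (6, 5), (5, 13), (7, 13), (8, 13), (11, 13)] _ (by decide)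
  · exact fcpOn_of_dismantles Gr
      [(5, 6), (11, 1), (6, 12), (1, 4), (4, 8), (7, 8), (8, 12)] _ (by decide)

/-- There are a graph `G` with 14 vertices and a vertex `v` of `G` such that both the open
neighbourhood of `v` and the graph `G - v` have the fixed clique property and `G` does not. -/
theorem result :
    ∃ (G : SimpleGraph (Fin 14)) (v : Fin 14),
      FixedCliqueProperty (G.induce (G.neighborSet v)) ∧
      FixedCliqueProperty (G.induce {w | w ≠ v}) ∧
      ¬ FixedCliqueProperty G := by
  refine ⟨Gr, 2, ?_, ?_, not_fcp⟩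
  · apply fcp_induce Gr _ _ _ link_fcp
    intro x
    rw [SimpleGraph.mem_neighborSet]
    revert x
    decide
  · apply fcp_induce Gr _ _ _ del_fcp
    intro x
    simp

end Pool.Agent.Results.MP_e83c66_co.Disproof
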